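import Pool.Agent.Helper73.HU.St
import Pool.Agent.Helper73.HM.Base

/-!
# MP_dbe07f_lc, HU project, module SD: definability of the canonical small cofinal subset
-/

namespace Pool.Agent.Helper63.HU

open Ordinal Cardinal ZFSet Order Pool.Agent.Helper73.HODC Pool.Agent.Helper73.HE
open Pool.Agent.Helper73.HM Pool.Agent.Helper73.HU

private theorem st_bdd (x : ZFSet.{0}) (a : Ordinal.{0}) (ha : a ∈ st x) : a < x.rank := by
  obtain ⟨z, hz, rfl⟩ := ha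
  exact rank_lt_of_mem hz

private theorem otpLt_iff_code (x : ZFSet.{0}) (τ : Ordinal.{0}) :
    OtpLt (st x) τ ↔ ∃ ζ : Ordinal.{0}, ζ < τ ∧ ∃ z : ZFSet.{0},
      (∀ a, a ∈ st x → ∃ c, fn z a = c ∧ c < ζ) ∧
      ∀ a, ∀ b, (a ∈ st x ∧ b ∈ st x ∧ a < b) → ∃ c, ∃ d, fn z a = c ∧ fn z b = d ∧ c < d := by
  constructor
  · rintro ⟨ζ, hζ, g, h1, h2⟩
    obtain ⟨z, hz, -⟩ := exists_fn g x.rank
    refine ⟨ζ, hζ, z, fun a ha => ⟨_, rfl, ?_⟩, ?_⟩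
    · rw [hz a (st_bdd x a ha)]; exact h1 a ha
    · rintro a b ⟨ha, hb, hab⟩
      refine ⟨_, _, rfl, rfl, ?_⟩
      rw [hz a (st_bdd x a ha), hz b (st_bdd x b hb)]
      exact h2 a ha b hb hab
  · rintro ⟨ζ, hζ, z, h1, h2⟩
    refine ⟨ζ, hζ, fn z, fun a ha => ?_, fun a ha b hb hab => ?_⟩
    · obtain ⟨c, hc, hc'⟩ := h1 a ha
      rw [hc]; exact hc'
    · obtain ⟨c, d, hc, hd, hcd⟩ := h2 a b ⟨ha, hb, hab⟩
      rw [hc, hd]; exact hcd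

private theorem dp_otpLt (τ : Ordinal.{0}) (i : ℕ) : DP (fun v => OtpLt (st (v i)) τ) := by
  refine DP.congr (Q := fun v => ∃ ζ : Ordinal.{0}, ζ < τ ∧ ∃ z : ZFSet.{0},
      (∀ a, a ∈ st (v i) → ∃ c, fn z a = c ∧ c < ζ) ∧
      ∀ a, ∀ b, (a ∈ st (v i) ∧ b ∈ st (v i) ∧ a < b) →
        ∃ c, ∃ d, fn z a = c ∧ fn z b = d ∧ c < d) ?_ (fun v => otpLt_iff_code (v i) τ)
  refine DP.exO (Q := fun ζ v => ζ < τ ∧ ∃ z : ZFSet.{0},
      (∀ a, a ∈ st (v i) → ∃ c, fn z a = c ∧ c < ζ) ∧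
      ∀ a, ∀ b, (a ∈ st (v i) ∧ b ∈ st (v i) ∧ a < b) →
        ∃ c, ∃ d, fn z a = c ∧ fn z b = d ∧ c < d) ?_
  refine (DP.rank_lt_ord 0 τ).and ?_
  refine DP.ex (Q := fun z v => (∀ a, a ∈ st (v (i + 1)) → ∃ c, fn z a = c ∧ c < (v 0).rank) ∧
      ∀ a, ∀ b, (a ∈ st (v (i + 1)) ∧ b ∈ st (v (i + 1)) ∧ a < b) →
        ∃ c, ∃ d, fn z a = c ∧ fn z b = d ∧ c < d) ?_
  refine DP.and ?_ ?_
  · refine DP.allO (Q := fun a v => a ∈ st (v (i + 2)) → ∃ c, fn (v 0) a = c ∧ c < (v 1).rank) ?_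
    refine (DP.st 0 (i + 3)).imp ?_
    refine DP.exO (Q := fun c v => fn (v 1) (v 0).rank = c ∧ c < (v 2).rank) ?_
    exact (DP.fn 2 1 0).and (DP.rank_lt 0 3)
  · refine DP.allO (Q := fun a v => ∀ b, (a ∈ st (v (i + 2)) ∧ b ∈ st (v (i + 2)) ∧ a < b) →
        ∃ c, ∃ d, fn (v 0) a = c ∧ fn (v 0) b = d ∧ c < d) ?_
    refine DP.allO (Q := fun b v => ((v 0).rank ∈ st (v (i + 3)) ∧ b ∈ st (v (i + 3)) ∧
        (v 0).rank < b) → ∃ c, ∃ d, fn (v 1) (v 0).rank = c ∧ fn (v 1) b = d ∧ c < d) ?_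
    refine ((DP.st 1 (i + 4)).and ((DP.st 0 (i + 4)).and (DP.rank_lt 1 0))).imp ?_
    refine DP.exO (Q := fun c v => ∃ d, fn (v 2) (v 1).rank = c ∧ fn (v 2) (v 0).rank = d ∧
      c < d) ?_
    refine DP.exO (Q := fun d v => fn (v 3) (v 2).rank = (v 0).rank ∧
      fn (v 3) (v 1).rank = d ∧ (v 0).rank < d) ?_
    exact (DP.fn 4 3 1).and ((DP.fn 4 2 0).and (DP.rank_lt 1 0))

private theorem dp_smallCof (τ : Ordinal.{0}) (i j : ℕ) :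
    DP (fun v => SmallCof τ (v i).rank (v j)) := by
  refine DP.and ?_ ((DP.of (dn_dfn_unbIn j i)).and (dp_otpLt τ j))
  refine DP.allO (Q := fun b v => b ∈ st (v j) → b < (v i).rank) ?_
  exact (DP.st 0 (j + 1)).imp (DP.rank_lt 0 (i + 1))

theorem sd (h : StLD) : StSD := by
  intro τ τ'
  refine DP.ex (Q := fun x v => LeastOD τ' (SmallCof τ (v 0).rank) x ∧ (v 1).rank ∈ st x) ?_
  refine DP.and ?_ (DP.st 2 0)
  exact h τ' (fun x v => SmallCof τ (v 1).rank x) (dp_smallCof τ 2 0) 0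

end Pool.Agent.Helper63.HU
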